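import Pool.Agent.H3.PK.Targets

/-!
# MP_7886dd_an: GSM, sums of Gaussians over the integers
-/

set_option autoImplicit false

open MeasureTheory Metric Set
open scoped ComplexConjugate
open Pool.Agent.H3.PK

namespace Pool.Agent.H24.PK

lemma geo_inj {r : ℝ} (h0 : 0 < r) (h1 : r < 1) (s : Finset ℕ) (g : ℕ → ℕ)
    (hg : Set.InjOn g (s : Set ℕ)) : ∑ k ∈ s, r ^ g k ≤ (1 - r)⁻¹ := by
  classical
  rw [← Finset.sum_image (f := fun j => r ^ j) hg, ← tsum_geometric_of_lt_one h0.le h1]
  exact (summable_geometric_of_lt_one h0.le h1).sum_le_tsum _ fun i _ => by positivity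

theorem gsm : T_GSM := by
  classical
  set r : ℝ := Real.exp (-1) with hr
  have h0 : 0 < r := Real.exp_pos _
  have h1 : r < 1 := by rw [hr, ← Real.exp_zero]; exact Real.exp_lt_exp.2 (by norm_num)
  refine ⟨max 1 (Real.exp (3 / 2) * (2 * (1 - r)⁻¹)), le_max_left _ _, fun N y hy => ?_⟩
  refine le_trans ?_ (le_max_right _ _)
  set m : ℕ := ⌊y⌋₊ with hm
  have hm1 : (m : ℝ) ≤ y := Nat.floor_le hy
  have hm2 : y < m + 1 := Nat.lt_floor_add_one y
  have hterm : ∀ k : ℕ, Real.exp (-(((k : ℝ) - y) ^ 2 / 2)) ≤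
      Real.exp (3 / 2) * Real.exp (-|(k : ℝ) - m|) := by
    intro k
    rw [← Real.exp_add]
    apply Real.exp_le_exp.2
    have h2 : |(k : ℝ) - m| ≤ |(k : ℝ) - y| + 1 := by
      have h3 : (k : ℝ) - m = ((k : ℝ) - y) + (y - m) := by ring
      rw [h3]
      refine (abs_add_le _ _).trans ?_
      have h4 : |y - m| ≤ 1 := by rw [abs_le]; constructor <;> linarith
      linarith
    nlinarith [sq_nonneg (|(k : ℝ) - y| - 1), sq_abs ((k : ℝ) - y)]
  refine (Finset.sum_le_sum fun k _ => hterm k).trans ?_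
  rw [← Finset.mul_sum]
  refine mul_le_mul_of_nonneg_left ?_ (Real.exp_pos _).le
  rw [← Finset.sum_filter_add_sum_filter_not (Finset.range N) (fun k => k < m), two_mul]
  have hpow : ∀ j : ℕ, Real.exp (-(j : ℝ)) = r ^ j := by
    intro j
    rw [hr, ← Real.exp_nat_mul]
    congr 1
    ring
  refine add_le_add ?_ ?_
  · rw [Finset.sum_congr rfl (g := fun k => r ^ (m - k))]
    · refine geo_inj h0 h1 _ _ ?_
      intro a ha b hb hab
      rw [Finset.mem_coe, Finset.mem_filter] at ha hb
      have hab' : m - a = m - b := hab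
      omega
    · intro k hk
      rw [Finset.mem_filter] at hk
      have h5 : |(k : ℝ) - m| = ((m - k : ℕ) : ℝ) := by
        rw [Nat.cast_sub hk.2.le, abs_sub_comm, abs_of_nonneg]
        have := (Nat.cast_le (α := ℝ)).2 hk.2.le
        linarith
      rw [h5, hpow]
  · rw [Finset.sum_congr rfl (g := fun k => r ^ (k - m))]
    · refine geo_inj h0 h1 _ _ ?_
      intro a ha b hb hab
      rw [Finset.mem_coe, Finset.mem_filter] at ha hb
      have hab' : a - m = b - m := hab
      omega
    · intro k hk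
      rw [Finset.mem_filter] at hk
      have h6 : m ≤ k := not_lt.1 hk.2
      have h5 : |(k : ℝ) - m| = ((k - m : ℕ) : ℝ) := by
        rw [Nat.cast_sub h6, abs_of_nonneg]
        have := (Nat.cast_le (α := ℝ)).2 h6
        linarith
      rw [h5, hpow]

end Pool.Agent.H24.PK
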