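import Pool.Agent.H3.PK.Targets

/-!
# MP_7886dd_an: SGN, choice of signs
-/

set_option autoImplicit false

open MeasureTheory Metric Set
open scoped ComplexConjugate
open Pool.Agent.H3.PK

namespace Pool.Agent.H24.PK

theorem sgn : T_SGN := by
  classical
  intro n σ hσ g hg ι s v
  have := hσ
  induction s using Finset.induction_on with
  | empty =>
    refine ⟨fun _ => 1, fun _ => Or.inl rfl, ?_⟩
    simp only [Finset.sum_empty]
    refine integral_nonneg fun z => ?_
    exact mul_nonneg (hg z) (by positivity)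
  | insert a s ha ih =>
    obtain ⟨e, he, hs⟩ := ih
    set u : MvPolynomial (Fin n) ℂ := ∑ i ∈ s, MvPolynomial.C (e i) * v i with hu
    have hint : ∀ p : MvPolynomial (Fin n) ℂ, Integrable (fun z : S n => g z * ‖ev p z‖ ^ 2) σ := by
      intro p
      refine integrable_cont σ ?_
      exact g.continuous.mul ((continuous_evS p).norm.pow 2)
    have hpar : (∫ z, g z * ‖ev (v a + u) z‖ ^ 2 ∂σ) + ∫ z, g z * ‖ev (-v a + u) z‖ ^ 2 ∂σ =
        2 * ((∫ z, g z * ‖ev (v a) z‖ ^ 2 ∂σ) + ∫ z, g z * ‖ev u z‖ ^ 2 ∂σ) := by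
      rw [← integral_add (hint _) (hint _), ← integral_add (hint _) (hint _),
        ← integral_const_mul]
      refine integral_congr_ae (Filter.Eventually.of_forall fun z => ?_)
      have h1 : ev (-v a + u) (z : E n) = ev u z - ev (v a) z := by
        simp [ev]; ring
      have h2 : ev (v a + u) (z : E n) = ev u z + ev (v a) z := by
        rw [ev_add]; ring
      have h3 := parallelogram_law_with_norm ℝ (ev u (z : E n)) (ev (v a) z)
      simp only
      rw [h1, h2]
      have h4 : ‖ev u (z : E n) + ev (v a) z‖ ^ 2 + ‖ev u (z : E n) - ev (v a) z‖ ^ 2 =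
          2 * (‖ev u (z : E n)‖ ^ 2 + ‖ev (v a) (z : E n)‖ ^ 2) := by
        nlinarith [h3]
      have h5 : g z * ‖ev u (z : E n) + ev (v a) z‖ ^ 2 +
          g z * ‖ev u (z : E n) - ev (v a) z‖ ^ 2 =
          g z * (‖ev u (z : E n) + ev (v a) z‖ ^ 2 + ‖ev u (z : E n) - ev (v a) z‖ ^ 2) := by ring
      rw [h5, h4]
      ring
    have hkey : ∀ c : ℂ, (c = 1 ∨ c = -1) →
        (∫ z, g z * ‖ev (v a) z‖ ^ 2 ∂σ) + ∫ z, g z * ‖ev u z‖ ^ 2 ∂σ ≤
          ∫ z, g z * ‖ev (MvPolynomial.C c * v a + u) z‖ ^ 2 ∂σ →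
        ∃ e : ι → ℂ, (∀ i, e i = 1 ∨ e i = -1) ∧
          ∑ i ∈ insert a s, ∫ z, g z * ‖ev (v i) z‖ ^ 2 ∂σ ≤
            ∫ z, g z * ‖ev (∑ i ∈ insert a s, MvPolynomial.C (e i) * v i) z‖ ^ 2 ∂σ := by
      intro c hc hle
      refine ⟨Function.update e a c, fun i => ?_, ?_⟩
      · rcases eq_or_ne i a with rfl | hi
        · simpa using hc
        · simpa [hi] using he i
      · rw [Finset.sum_insert ha, Finset.sum_insert ha, Function.update_self]
        have h1 : ∑ i ∈ s, MvPolynomial.C (Function.update e a c i) * v i = u := by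
          rw [hu]
          refine Finset.sum_congr rfl fun i hi => ?_
          have hne : i ≠ a := fun h => ha (by rw [← h]; exact hi)
          rw [Function.update_of_ne hne]
        rw [h1]
        linarith
    rcases le_total (∫ z, g z * ‖ev (v a + u) z‖ ^ 2 ∂σ) (∫ z, g z * ‖ev (-v a + u) z‖ ^ 2 ∂σ)
      with h | h
    · refine hkey (-1) (Or.inr rfl) ?_
      rw [show MvPolynomial.C (-1 : ℂ) * v a = -v a by simp]
      linarith
    · refine hkey 1 (Or.inl rfl) ?_
      rw [show MvPolynomial.C (1 : ℂ) * v a = v a by simp]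
      linarith

end Pool.Agent.H24.PK
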